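import Pool.Agent.H70.OQ.Targets

/-!
Module LKG: the values of the oracle of the stage.
-/

set_option autoImplicit false

namespace Pool.Agent.H12.OQ.LKG

open Finset Pool.Agent.H6.NB Pool.Agent.H70.OQ

theorem key_inj {s s' : List Bool} (h : key s = key s') : s = s' := by
  unfold key at h
  exact (List.cons.inj (List.cons.inj h).2).2

theorem blk_ne_key (s s' : List Bool) (i : ℕ) (f : Bool) (z : List Bool) :
    Pool.Agent.H6.NB.blk s i f z ≠ key s' := by
  intro h
  unfold Pool.Agent.H6.NB.blk key at h
  have := (List.cons.inj (List.cons.inj h).2).1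
  exact absurd this (by decide)

theorem bas_ne_key (u s' : List Bool) : false :: u ≠ key s' := by
  intro h
  unfold key at h
  have := (List.cons.inj h).1
  exact absurd this (by decide)

theorem Bld_not_key {A : List Bool → (List Bool → Bool) → Prop} {σ O : List Bool → Bool}
    (h : Bldg A σ O) {w : List Bool} (hw : ∀ s, w ≠ key s) : O w = σ w := by
  rw [h w]
  have : ¬ ∃ s, w = key s ∧ A s O := by
    rintro ⟨s, h, -⟩
    exact hw s h
  simp [this]

open Classical in
theorem Bld_key {A : List Bool → (List Bool → Bool) → Prop} {σ O : List Bool → Bool}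
    (h : Bldg A σ O) (s : List Bool) : O (key s) = xor (σ (key s)) (decide (A s O)) := by
  rw [h (key s)]
  congr 1
  have : (∃ s', key s = key s' ∧ A s' O) ↔ A s O := by
    constructor
    · rintro ⟨s', h, h'⟩
      rw [key_inj h]
      exact h'
    · intro h
      exact ⟨s, rfl, h⟩
  exact decide_eq_decide.2 this

theorem lkg (h1 : T_BUG) (h2 : T_CLH) (h3 : T_NST) (h4 : Pool.Agent.H6.NB.T_COD) : T_LKG := by
  intro k A n a σ₀ O₀ O T κ P hS hn hB₀ hB w hw
  obtain ⟨c1, c2, c3, c4⟩ := h2 k n a O₀
  obtain ⟨d1, d2, d3, d4⟩ := h2 k n a σ₀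
  by_cases e1 : ∃ p : Nn n k, w = false :: nstr n k p
  · obtain ⟨p, rfl⟩ := e1
    rw [c1, Bld_not_key hB (fun s => bas_ne_key _ s)]
    unfold sdg
    rw [d1]
    rfl
  by_cases e2 : ∃ s : Om n a, w = key s.1
  · obtain ⟨s, rfl⟩ := e2
    rw [c2]
    rfl
  by_cases e3 : ∃ (s : Om n a) (i : Fin (ns s.1)) (v : VV (qs s.1)),
      w = Pool.Agent.H6.NB.blk s.1 i v.1 (List.ofFn v.2)
  · obtain ⟨s, i, v, rfl⟩ := e3
    rw [c3, Bld_not_key hB (fun s' => blk_ne_key _ _ _ _ _)]
    unfold sdg
    rw [d3]
    rfl
  have f1 : clg k n a O₀ w = .cst (O₀ w) := by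
    rcases c4 w with h | h | h | h
    · exact absurd h e1
    · exact absurd h e2
    · exact absurd h e3
    · exact h
  have f2 : clg k n a σ₀ w = .cst (σ₀ w) := by
    rcases d4 w with h | h | h | h
    · exact absurd h e1
    · exact absurd h e2
    · exact absurd h e3
    · exact h
  have hsw : sdg k n a σ₀ T κ P w = σ₀ w := by
    unfold sdg
    rw [f2]
    rfl
  rw [f1]
  change O w = O₀ w
  by_cases hk : ∃ s, w = key s
  · obtain ⟨s, rfl⟩ := hk
    rw [Bld_key hB, Bld_key hB₀, hsw]
    congr 1
    -- the instance is short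
    have hlen : (key s).length = s.length + 2 := by
      unfold key
      simp
    have hs1 : s.length < n ^ a := by omega
    have hs2 : s.length < n ^ 2 := by
      by_contra hcon
      push Not at hcon
      exact e2 ⟨⟨s, hcon, hs1⟩, rfl⟩
    -- the seeds agree below `n`
    have hagree : ∀ w : List Bool, w.length ≤ n - 1 → sdg k n a σ₀ T κ P w = σ₀ w := by
      intro w' hw'
      have hnn : n ≤ n ^ 2 := by nlinarith
      rcases d4 w' with ⟨p, rfl⟩ | ⟨s', rfl⟩ | ⟨s', i, v, rfl⟩ | h
      · exfalso
        rw [List.length_cons, (h3 n k).1] at hw'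
        have h6 : 1 ≤ 2 ^ (k + 1) - 1 := by
          have h7 : 2 ^ 1 ≤ 2 ^ (k + 1) := Nat.pow_le_pow_right (by norm_num) (by omega)
          omega
        have h8 : n ≤ (2 ^ (k + 1) - 1) * n := Nat.le_mul_of_pos_left n h6
        omega
      · exfalso
        have := s'.2.1
        unfold key at hw'
        simp at hw'
        omega
      · exfalso
        have := s'.2.1
        have h5 := h4.2 s'.1 (List.ofFn v.2) (2 * i + v.1.toNat)
        unfold Pool.Agent.H6.NB.blk at hw'
        rw [List.length_cons, List.length_cons, h5] at hw'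
        omega
      · unfold sdg
        rw [h]
        rfl
    have hacc : A s O ↔ A s O₀ := by
      apply hS s O O₀
      intro w' hw'
      have hmn : w'.length ≤ n - 1 := by
        by_contra hcon
        push Not at hcon
        have h6 : n ≤ w'.length := by omega
        have : n ^ 2 ≤ w'.length ^ 2 := Nat.pow_le_pow_left h6 2
        omega
      exact h1 A _ σ₀ O O₀ (n - 1) hS hB hB₀ hagree w' hmn
    exact decide_eq_decide.2 hacc
  · push Not at hk
    rw [Bld_not_key hB hk, Bld_not_key hB₀ hk, hsw]

end Pool.Agent.H12.OQ.LKG
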